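import Pool.Agent.X171.LZ.Sub

open Finset Filter Topology

namespace Pool.Agent.X171.LZ

variable {𝕜 : Type} [RCLike 𝕜] {r : ℝ} {hr : 0 < r} {hr1 : r < 1}

/-- The unit vectors. -/
def e (𝕜 : Type) [RCLike 𝕜] (r : ℝ) (hr : 0 < r) (hr1 : r < 1) (n : ℕ) : X 𝕜 r hr hr1 :=
  ⟨Pi.single n 1, by
    intro ε hε
    refine ⟨n + 1, fun S π _ hS => ?_⟩
    unfold val
    rw [Finset.sum_eq_zero]
    · exact hε.le
    · intro j hj
      have : j ≠ n := by have := hS j hj; omega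
      rw [Pi.single_eq_of_ne this, norm_zero, Real.zero_rpow hr.ne', zero_mul]⟩

lemma e_apply (n j : ℕ) : ((e 𝕜 r hr hr1 n : X 𝕜 r hr hr1) : ℕ → 𝕜) j = if j = n then 1 else 0 := by
  change (Pi.single n 1 : ℕ → 𝕜) j = _
  rw [Pi.single_apply]

/-- The coordinate functionals. -/
def co (𝕜 : Type) [RCLike 𝕜] (r : ℝ) (hr : 0 < r) (hr1 : r < 1) (n : ℕ) : X 𝕜 r hr hr1 →ₗ[𝕜] 𝕜 where
  toFun := fun x => (x : ℕ → 𝕜) n
  map_add' := fun _ _ => rfl
  map_smul' := fun _ _ => rfl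

lemma co_apply (n : ℕ) (x : X 𝕜 r hr hr1) : co 𝕜 r hr hr1 n x = (x : ℕ → 𝕜) n := rfl

lemma sum_e_apply (A : Finset ℕ) (c : ℕ → 𝕜) (j : ℕ) :
    ((∑ n ∈ A, c n • e 𝕜 r hr hr1 n : X 𝕜 r hr hr1) : ℕ → 𝕜) j = if j ∈ A then c j else 0 := by
  rw [← co_apply, map_sum]
  simp only [map_smul, co_apply, e_apply, smul_eq_mul, mul_ite, mul_one, mul_zero]
  rw [Finset.sum_ite_eq]

/-- Upper bound of the norm of indicator vectors. -/
lemma nu_sum_e (A : Finset ℕ) :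
    nu r ((∑ n ∈ A, e 𝕜 r hr hr1 n : X 𝕜 r hr hr1) : ℕ → 𝕜) ≤ (A.card : ℝ) ^ (r / 2) := by
  classical
  have h1 : ∀ j, ((∑ n ∈ A, e 𝕜 r hr hr1 n : X 𝕜 r hr hr1) : ℕ → 𝕜) j = if j ∈ A then 1 else 0 := by
    intro j
    have := sum_e_apply (hr := hr) (hr1 := hr1) A (fun _ => (1 : 𝕜)) j
    simpa using this
  apply nu_le
  intro S π hπ
  unfold val
  have h2 : ∀ j ∈ S, ‖((∑ n ∈ A, e 𝕜 r hr hr1 n : X 𝕜 r hr hr1) : ℕ → 𝕜) j‖ ^ r * w r (π j) =
      if j ∈ A then w r (π j) else 0 := by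
    intro j _
    rw [h1 j]
    split_ifs
    · rw [norm_one, Real.one_rpow, one_mul]
    · rw [norm_zero, Real.zero_rpow hr.ne', zero_mul]
  rw [Finset.sum_congr rfl h2, ← Finset.sum_filter]
  have hinj : Set.InjOn π (S.filter (fun j => j ∈ A)) :=
    hπ.mono (by intro j hj; exact (Finset.mem_filter.mp hj).1)
  rw [← Finset.sum_image (f := w r) hinj]
  refine (sum_w_le hr hr1 _).trans ?_
  apply Real.rpow_le_rpow (by positivity) _ (by positivity)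
  rw [Finset.card_image_of_injOn hinj]
  have : S.filter (fun j => j ∈ A) ⊆ A := fun j hj => (Finset.mem_filter.mp hj).2
  exact_mod_cast Finset.card_le_card this

/-- Sums of coordinates are bounded by twice the square root of their number. -/
lemma sum_coord_le (y : X 𝕜 r hr hr1) (hy : nu r (y : ℕ → 𝕜) ≤ 1) :
    ∀ (b : ℕ) (B : Finset ℕ), B.card = b → ∑ n ∈ B, ‖(y : ℕ → 𝕜) n‖ ≤ 2 * Real.sqrt b := by
  classical
  intro b
  induction b with
  | zero =>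
    intro B hB
    rw [Finset.card_eq_zero.mp hB]
    simp
  | succ b ih =>
    intro B hB
    have hne : B.Nonempty := by
      rw [← Finset.card_pos, hB]
      omega
    obtain ⟨n, hn, hmin⟩ := Finset.exists_min_image B (fun n => ‖(y : ℕ → 𝕜) n‖) hne
    rw [← Finset.add_sum_erase B _ hn]
    have h1 := ih (B.erase n) (by rw [Finset.card_erase_of_mem hn, hB]; rfl)
    set t := ‖(y : ℕ → 𝕜) n‖ with ht
    have h2 := (lower_card y B (norm_nonneg _) hmin).trans hy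
    rw [hB] at h2
    have hbpos : (0 : ℝ) < ((b + 1 : ℕ) : ℝ) := by positivity
    -- `t * sqrt (b + 1) ≤ 1`
    have h3 : t * Real.sqrt ((b + 1 : ℕ) : ℝ) ≤ 1 := by
      have h4 : (t * Real.sqrt ((b + 1 : ℕ) : ℝ)) ^ r ≤ 1 ^ r := by
        rw [Real.mul_rpow (norm_nonneg _) (Real.sqrt_nonneg _), Real.one_rpow,
          Real.sqrt_eq_rpow, ← Real.rpow_mul hbpos.le]
        have e1 : (1 / 2 : ℝ) * r = r / 2 := by ring
        rw [e1]
        exact h2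
      exact (Real.rpow_le_rpow_iff (by positivity) zero_le_one hr).mp h4
    push_cast at h3 ⊢
    set s := Real.sqrt ((b : ℝ) + 1) with hs
    set s' := Real.sqrt (b : ℝ) with hs'
    have hss : s ^ 2 = (b : ℝ) + 1 := Real.sq_sqrt (by positivity)
    have hss' : s' ^ 2 = (b : ℝ) := Real.sq_sqrt (by positivity)
    have hs0 : 0 < s := Real.sqrt_pos.mpr (by positivity)
    have hs'0 : 0 ≤ s' := Real.sqrt_nonneg _
    have hle : s' ≤ s := Real.sqrt_le_sqrt (by linarith)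
    -- `1 / s ≤ 2 (s - s')`
    have h5 : t ≤ 2 * (s - s') := by
      have h6 : 1 ≤ 2 * (s - s') * s := by nlinarith
      have h7 : t * s ≤ 2 * (s - s') * s := h3.trans h6
      exact le_of_mul_le_mul_right h7 hs0
    linarith

/-- The quasi-norm. -/
noncomputable def q (x : X 𝕜 r hr hr1) : ℝ := (nu r (x : ℕ → 𝕜)) ^ (1 / r)

lemma q_nonneg (x : X 𝕜 r hr hr1) : 0 ≤ q x := Real.rpow_nonneg (nu_nonneg hr _) _

lemma q_pow (x : X 𝕜 r hr hr1) : q x ^ r = nu r (x : ℕ → 𝕜) := by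
  unfold q
  rw [← Real.rpow_mul (nu_nonneg hr _), one_div, inv_mul_cancel₀ hr.ne', Real.rpow_one]

lemma q_smul (c : 𝕜) (x : X 𝕜 r hr hr1) : q (c • x) = ‖c‖ * q x := by
  unfold q
  rw [Submodule.coe_smul, nu_smul, Real.mul_rpow (by positivity) (nu_nonneg hr _),
    ← Real.rpow_mul (norm_nonneg _), mul_one_div_cancel hr.ne', Real.rpow_one]

lemma nu_zero : nu r ((0 : X 𝕜 r hr hr1) : ℕ → 𝕜) = 0 := by
  apply le_antisymm _ (nu_nonneg hr _)
  apply nu_le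
  intro S π _
  unfold val
  simp [Real.zero_rpow hr.ne']

lemma q_eq_zero (x : X 𝕜 r hr hr1) : q x = 0 ↔ x = 0 := by
  constructor
  · intro h
    apply eq_zero_of_nu
    rw [← q_pow, h, Real.zero_rpow hr.ne']
  · rintro rfl
    unfold q
    rw [nu_zero, Real.zero_rpow (by positivity)]

lemma q_lt_iff (x : X 𝕜 r hr hr1) {ε : ℝ} (hε : 0 < ε) : q x < ε ↔ nu r (x : ℕ → 𝕜) < ε ^ r := by
  rw [← q_pow]
  exact (Real.rpow_lt_rpow_iff (q_nonneg x) hε.le hr).symm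

lemma q_le_iff (x : X 𝕜 r hr hr1) {ε : ℝ} (hε : 0 ≤ ε) : q x ≤ ε ↔ nu r (x : ℕ → 𝕜) ≤ ε ^ r := by
  rw [← q_pow]
  exact (Real.rpow_le_rpow_iff (q_nonneg x) hε hr).symm

lemma q_add (x y : X 𝕜 r hr hr1) : q (x + y) ≤ (2 : ℝ) ^ (1 / r) * (q x + q y) := by
  have h0 : 0 < 1 / r := by positivity
  have hx0 := nu_nonneg hr (x : ℕ → 𝕜)
  have hy0 := nu_nonneg hr (y : ℕ → 𝕜)
  have h1 : nu r ((x + y : X 𝕜 r hr hr1) : ℕ → 𝕜) ≤
      2 * max (nu r (x : ℕ → 𝕜)) (nu r (y : ℕ → 𝕜)) := by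
    have := nu_add_le x y
    have h2 := le_max_left (nu r (x : ℕ → 𝕜)) (nu r (y : ℕ → 𝕜))
    have h3 := le_max_right (nu r (x : ℕ → 𝕜)) (nu r (y : ℕ → 𝕜))
    change nu r ((x : ℕ → 𝕜) + (y : ℕ → 𝕜)) ≤ _
    linarith
  have hmax : 0 ≤ max (nu r (x : ℕ → 𝕜)) (nu r (y : ℕ → 𝕜)) := le_max_of_le_left hx0
  have h4 : q (x + y) ≤ (2 : ℝ) ^ (1 / r) * (max (nu r (x : ℕ → 𝕜)) (nu r (y : ℕ → 𝕜))) ^ (1 / r) := by
    unfold q
    rw [← Real.mul_rpow (by norm_num) hmax]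
    exact Real.rpow_le_rpow (nu_nonneg hr _) h1 h0.le
  refine h4.trans (mul_le_mul_of_nonneg_left ?_ (by positivity))
  rcases le_total (nu r (x : ℕ → 𝕜)) (nu r (y : ℕ → 𝕜)) with h | h
  · rw [max_eq_right h]
    have := q_nonneg x
    change q y ≤ _
    linarith
  · rw [max_eq_left h]
    have := q_nonneg y
    change q x ≤ _
    linarith

/-- Completeness. -/
lemma complete (x : ℕ → X 𝕜 r hr hr1)
    (hx : ∀ ε : ℝ, 0 < ε → ∃ N, ∀ i, N ≤ i → ∀ j, N ≤ j → q (x i - x j) < ε) :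
    ∃ y : X 𝕜 r hr hr1, ∀ ε : ℝ, 0 < ε → ∃ N, ∀ i, N ≤ i → q (x i - y) < ε := by
  have hx' : ∀ ε : ℝ, 0 < ε → ∃ N, ∀ i, N ≤ i → ∀ j, N ≤ j →
      nu r ((x i - x j : X 𝕜 r hr hr1) : ℕ → 𝕜) < ε := by
    intro ε hε
    obtain ⟨N, hN⟩ := hx (ε ^ (1 / r)) (by positivity)
    refine ⟨N, fun i hi j hj => ?_⟩
    have := hN i hi j hj
    rwa [q_lt_iff _ (by positivity), ← Real.rpow_mul hε.le, one_div, inv_mul_cancel₀ hr.ne',
      Real.rpow_one] at this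
  have hco : ∀ k, ∃ c : 𝕜, Tendsto (fun n => (x n : ℕ → 𝕜) k) atTop (𝓝 c) := by
    intro k
    apply cauchySeq_tendsto_of_complete
    rw [Metric.cauchySeq_iff]
    intro ε hε
    obtain ⟨N, hN⟩ := hx' (ε ^ r) (by positivity)
    refine ⟨N, fun i hi j hj => ?_⟩
    have h1 := coord_le (x i - x j) k
    have h2 := lt_of_le_of_lt h1 (hN i hi j hj)
    rw [dist_eq_norm]
    exact (Real.rpow_lt_rpow_iff (norm_nonneg _) hε.le hr).mp h2
  choose y hy using hco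
  -- the key estimate
  have key : ∀ ε : ℝ, 0 < ε → ∃ N, ∀ i, N ≤ i → ∀ (S : Finset ℕ) (π : ℕ → ℕ), Set.InjOn π S →
      val r S π ((x i : ℕ → 𝕜) - y) ≤ ε := by
    intro ε hε
    obtain ⟨N, hN⟩ := hx' ε hε
    refine ⟨N, fun i hi S π hπ => ?_⟩
    have hlim : Tendsto (fun j => val r S π ((x i : ℕ → 𝕜) - (x j : ℕ → 𝕜))) atTop
        (𝓝 (val r S π ((x i : ℕ → 𝕜) - y))) := by
      unfold val
      apply tendsto_finsetSum
      intro k _
      apply Tendsto.mul_const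
      have h1 : Tendsto (fun j => (x i : ℕ → 𝕜) k - (x j : ℕ → 𝕜) k) atTop
          (𝓝 ((x i : ℕ → 𝕜) k - y k)) := (hy k).const_sub _
      exact (h1.norm).rpow_const (Or.inr hr.le)
    refine le_of_tendsto hlim ?_
    filter_upwards [eventually_ge_atTop N] with j hj
    exact (val_le_nu (x i - x j) hπ).trans (hN i hi j hj).le
  have hmem : y ∈ X 𝕜 r hr hr1 := by
    intro ε hε
    obtain ⟨N, hN⟩ := key (ε / 2) (half_pos hε)
    obtain ⟨M, hM⟩ := (x N).2 (ε / 2) (half_pos hε)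
    refine ⟨M, fun S π hπ hS => ?_⟩
    have h1 := hN N le_rfl S π hπ
    have h2 := hM S π hπ hS
    have h3 := val_add_le hr hr1 S π (x N : ℕ → 𝕜) (-((x N : ℕ → 𝕜) - y))
    rw [val_neg] at h3
    have e1 : (x N : ℕ → 𝕜) + -((x N : ℕ → 𝕜) - y) = y := by abel
    rw [e1] at h3
    linarith
  refine ⟨⟨y, hmem⟩, fun ε hε => ?_⟩
  obtain ⟨N, hN⟩ := key (ε ^ r / 2) (by positivity)
  refine ⟨N, fun i hi => ?_⟩
  rw [q_lt_iff _ hε]
  have h1 : nu r ((x i - ⟨y, hmem⟩ : X 𝕜 r hr hr1) : ℕ → 𝕜) ≤ ε ^ r / 2 :=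
    nu_le (fun S π hπ => hN i hi S π hπ)
  have h2 : 0 < ε ^ r := by positivity
  linarith

/-- Density of the span of the unit vectors. -/
lemma span_dense (y : X 𝕜 r hr hr1) {ε : ℝ} (hε : 0 < ε) :
    ∃ z ∈ Submodule.span 𝕜 (Set.range (e 𝕜 r hr hr1)), q (y - z) < ε := by
  classical
  obtain ⟨N, hN⟩ := y.2 (ε ^ r / 2) (by positivity)
  refine ⟨∑ n ∈ range N, (y : ℕ → 𝕜) n • e 𝕜 r hr hr1 n, ?_, ?_⟩
  · apply Submodule.sum_mem
    intro n _
    exact Submodule.smul_mem _ _ (Submodule.subset_span ⟨n, rfl⟩)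
  · rw [q_lt_iff _ hε]
    have h1 : nu r ((y - ∑ n ∈ range N, (y : ℕ → 𝕜) n • e 𝕜 r hr hr1 n : X 𝕜 r hr hr1) : ℕ → 𝕜) ≤
        ε ^ r / 2 := by
      apply nu_le
      intro S π hπ
      have hval : val r S π
          ((y - ∑ n ∈ range N, (y : ℕ → 𝕜) n • e 𝕜 r hr hr1 n : X 𝕜 r hr hr1) : ℕ → 𝕜) =
          val r (S.filter (fun j => ¬ j < N)) π (y : ℕ → 𝕜) := by
        unfold val
        rw [Finset.sum_filter]
        apply Finset.sum_congr rfl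
        intro j _
        have e1 : ((y - ∑ n ∈ range N, (y : ℕ → 𝕜) n • e 𝕜 r hr hr1 n : X 𝕜 r hr hr1) : ℕ → 𝕜) j =
            (y : ℕ → 𝕜) j - if j ∈ range N then (y : ℕ → 𝕜) j else 0 := by
          rw [← sum_e_apply (hr := hr) (hr1 := hr1)]
          rfl
        rw [e1]
        by_cases h : j < N
        · rw [if_pos (Finset.mem_range.mpr h), sub_self, norm_zero, Real.zero_rpow hr.ne', zero_mul,
            if_neg (not_not.mpr h)]
        · rw [if_neg (fun h' => h (Finset.mem_range.mp h')), sub_zero, if_pos h]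
      rw [hval]
      apply hN _ _ (hπ.mono (by intro j hj; exact (Finset.mem_filter.mp hj).1))
      intro j hj
      exact not_lt.mp (Finset.mem_filter.mp hj).2
    have h2 : 0 < ε ^ r := by positivity
    linarith

lemma q_e (n : ℕ) : q (e 𝕜 r hr hr1 n) = 1 := by
  have h1 : nu r ((e 𝕜 r hr hr1 n : X 𝕜 r hr hr1) : ℕ → 𝕜) = 1 := by
    apply le_antisymm
    · have := nu_sum_e (𝕜 := 𝕜) (hr := hr) (hr1 := hr1) {n}
      simpa using this
    · have := coord_le (e 𝕜 r hr hr1 n) n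
      rw [e_apply, if_pos rfl, norm_one, Real.one_rpow] at this
      exact this
  unfold q
  rw [h1, Real.one_rpow]

lemma co_le (n : ℕ) (y : X 𝕜 r hr hr1) : ‖co 𝕜 r hr hr1 n y‖ ≤ q y := by
  have h := coord_le y n
  rw [← q_pow] at h
  exact (Real.rpow_le_rpow_iff (norm_nonneg _) (q_nonneg y) hr).mp h

lemma q_sum_e (A : Finset ℕ) : q (∑ n ∈ A, e 𝕜 r hr hr1 n) ≤ Real.sqrt A.card := by
  rw [q_le_iff _ (Real.sqrt_nonneg _), Real.sqrt_eq_rpow, ← Real.rpow_mul (by positivity)]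
  have e1 : (1 / 2 : ℝ) * r = r / 2 := by ring
  rw [e1]
  exact nu_sum_e A

lemma bidem (m : ℕ) (A B : Finset ℕ) (hA : A.card ≤ m) (hB : B.card ≤ m) (y : X 𝕜 r hr hr1)
    (hy : q y ≤ 1) : q (∑ n ∈ A, e 𝕜 r hr hr1 n) * ‖∑ n ∈ B, co 𝕜 r hr hr1 n y‖ ≤ 2 * m := by
  have h1 : q (∑ n ∈ A, e 𝕜 r hr hr1 n) ≤ Real.sqrt m :=
    (q_sum_e A).trans (Real.sqrt_le_sqrt (by exact_mod_cast hA))
  have hy' : nu r (y : ℕ → 𝕜) ≤ 1 := by
    rw [q_le_iff _ zero_le_one, Real.one_rpow] at hy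
    exact hy
  have h2 : ‖∑ n ∈ B, co 𝕜 r hr hr1 n y‖ ≤ 2 * Real.sqrt m := by
    refine (norm_sum_le _ _).trans ((sum_coord_le y hy' _ B rfl).trans ?_)
    exact mul_le_mul_of_nonneg_left (Real.sqrt_le_sqrt (by exact_mod_cast hB)) (by norm_num)
  calc q (∑ n ∈ A, e 𝕜 r hr hr1 n) * ‖∑ n ∈ B, co 𝕜 r hr hr1 n y‖
      ≤ Real.sqrt m * (2 * Real.sqrt m) :=
        mul_le_mul h1 h2 (norm_nonneg _) (Real.sqrt_nonneg _)
    _ = 2 * (Real.sqrt m * Real.sqrt m) := by ring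
    _ = 2 * m := by rw [Real.mul_self_sqrt (by positivity)]

lemma infdim : ¬ FiniteDimensional 𝕜 (X 𝕜 r hr hr1) := by
  intro hfd
  have hli : LinearIndependent 𝕜 (e 𝕜 r hr hr1) := by
    rw [linearIndependent_iff']
    intro s g hg i hi
    have h1 := sum_e_apply (hr := hr) (hr1 := hr1) s g i
    rw [hg, if_pos hi] at h1
    exact h1.symm
  have h2 := hli.finrank_eq_zero_of_infinite
  have h3 : Subsingleton (X 𝕜 r hr hr1) := Module.finrank_zero_iff.mp h2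
  have h4 : e 𝕜 r hr hr1 0 = 0 := Subsingleton.elim _ _
  have h5 := q_e (𝕜 := 𝕜) (hr := hr) (hr1 := hr1) 0
  rw [h4, (q_eq_zero _).mpr rfl] at h5
  exact zero_ne_one h5

end Pool.Agent.X171.LZ
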