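import Mathlib

/-!
# Lorentz sequence spaces `ℓ_{2,r}`, `0 < r < 1`
-/

open Finset Filter Topology

namespace Pool.Agent.X171.LZ

/-- The weights. -/
noncomputable def w (r : ℝ) (n : ℕ) : ℝ := ((n : ℝ) + 1) ^ (r / 2) - (n : ℝ) ^ (r / 2)

section Weights

variable {r : ℝ}

lemma w_zero (hr : 0 < r) : w r 0 = 1 := by
  unfold w
  rw [Nat.cast_zero, zero_add, Real.one_rpow, Real.zero_rpow (by positivity), sub_zero]

lemma w_nonneg (hr : 0 < r) (n : ℕ) : 0 ≤ w r n := by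
  unfold w
  rw [sub_nonneg]
  exact Real.rpow_le_rpow (by positivity) (by linarith) (by positivity)

lemma w_succ (hr : 0 < r) (hr1 : r < 1) (n : ℕ) : w r (n + 1) ≤ w r n := by
  unfold w
  have hc : ConcaveOn ℝ (Set.Ici 0) (fun x : ℝ => x ^ (r / 2)) :=
    Real.concaveOn_rpow (by positivity) (by linarith)
  have hx : (n : ℝ) + 2 ∈ Set.Ici (0 : ℝ) := Set.mem_Ici.mpr (by positivity)
  have hy : (n : ℝ) ∈ Set.Ici (0 : ℝ) := Set.mem_Ici.mpr (by positivity)
  have h := hc.2 hx hy (by norm_num : (0 : ℝ) ≤ 1 / 2) (by norm_num : (0 : ℝ) ≤ 1 / 2)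
    (by norm_num)
  simp only [smul_eq_mul] at h
  have e : (1 / 2 : ℝ) * ((n : ℝ) + 2) + 1 / 2 * (n : ℝ) = (n : ℝ) + 1 := by ring
  rw [e] at h
  push_cast
  have e2 : (n : ℝ) + 1 + 1 = (n : ℝ) + 2 := by ring
  rw [e2]
  linarith

lemma w_anti (hr : 0 < r) (hr1 : r < 1) : Antitone (w r) :=
  antitone_nat_of_succ_le (w_succ hr hr1)

lemma w_le_one (hr : 0 < r) (hr1 : r < 1) (n : ℕ) : w r n ≤ 1 := by
  rw [← w_zero hr]
  exact w_anti hr hr1 (Nat.zero_le n)

lemma sum_w (hr : 0 < r) (m : ℕ) : ∑ i ∈ range m, w r i = (m : ℝ) ^ (r / 2) := by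
  induction m with
  | zero => simp [Real.zero_rpow (by positivity : r / 2 ≠ 0)]
  | succ m ih =>
    rw [Finset.sum_range_succ, ih, w]
    push_cast
    ring

/-- Sums of the weights over arbitrary sets. -/
lemma sum_w_le (hr : 0 < r) (hr1 : r < 1) (T : Finset ℕ) :
    ∑ i ∈ T, w r i ≤ (T.card : ℝ) ^ (r / 2) := by
  rw [← sum_w hr]
  -- by induction on the cardinality, removing the maximum
  induction T using Finset.induction_on_max with
  | empty => simp
  | insert a s hs ih =>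
    have ha : a ∉ s := fun h => lt_irrefl _ (hs a h)
    rw [Finset.sum_insert ha, Finset.card_insert_of_notMem ha, Finset.sum_range_succ]
    have hcard : s.card ≤ a := by
      have : s ⊆ range a := fun x hx => Finset.mem_range.mpr (hs x hx)
      have := Finset.card_le_card this
      rwa [Finset.card_range] at this
    have := w_anti hr hr1 hcard
    linarith

/-- The total loss of a shift. -/
lemma shift_loss (hr : 0 < r) (hr1 : r < 1) (K : ℕ) (T : Finset ℕ) :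
    ∑ n ∈ T, (w r n - w r (n + K)) ≤ K := by
  have h1 : ∑ n ∈ T, (w r n - w r (n + K)) ≤ ∑ n ∈ range (T.sup id + 1), (w r n - w r (n + K)) := by
    apply Finset.sum_le_sum_of_subset_of_nonneg
    · intro n hn
      exact Finset.mem_range.mpr (Nat.lt_succ_of_le (Finset.le_sup (f := id) hn))
    · intro n _ _
      rw [sub_nonneg]
      exact w_anti hr hr1 (Nat.le_add_right n K)
  refine h1.trans ?_
  have h2 : ∀ N : ℕ, ∑ n ∈ range N, (w r n - w r (n + K)) ≤ K := by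
    intro N
    rw [Finset.sum_sub_distrib]
    have e1 : ∑ n ∈ range N, w r (n + K) = ∑ n ∈ range (N + K), w r n - ∑ n ∈ range K, w r n := by
      rw [add_comm N K, Finset.sum_range_add]
      have : ∀ n ∈ range N, w r (n + K) = w r (K + n) := fun n _ => by rw [add_comm]
      rw [Finset.sum_congr rfl this]
      ring
    have e2 : ∑ n ∈ range N, w r n ≤ ∑ n ∈ range (N + K), w r n :=
      Finset.sum_le_sum_of_subset_of_nonneg (Finset.range_subset_range.mpr (Nat.le_add_right _ _))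
        (fun n _ _ => w_nonneg hr n)
    have e3 : ∑ n ∈ range K, w r n ≤ K := by
      calc ∑ n ∈ range K, w r n ≤ ∑ n ∈ range K, (1 : ℝ) :=
            Finset.sum_le_sum (fun n _ => w_le_one hr hr1 n)
        _ = K := by simp
    linarith
  exact h2 _

end Weights

variable {𝕜 : Type} [RCLike 𝕜] {r : ℝ}

/-- The value at a test pair. -/
noncomputable def val (r : ℝ) (S : Finset ℕ) (π : ℕ → ℕ) (x : ℕ → 𝕜) : ℝ :=
  ∑ j ∈ S, ‖x j‖ ^ r * w r (π j)

/-- The set of values. -/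
def vals (r : ℝ) (x : ℕ → 𝕜) : Set ℝ := {t | ∃ (S : Finset ℕ) (π : ℕ → ℕ), Set.InjOn π S ∧
  t = val r S π x}

/-- The `r`-th power of the quasi-norm. -/
noncomputable def nu (r : ℝ) (x : ℕ → 𝕜) : ℝ := sSup (vals r x)

lemma val_nonneg (hr : 0 < r) (S : Finset ℕ) (π : ℕ → ℕ) (x : ℕ → 𝕜) : 0 ≤ val r S π x :=
  Finset.sum_nonneg (fun _ _ => mul_nonneg (by positivity) (w_nonneg hr _))

lemma val_add_le (hr : 0 < r) (hr1 : r < 1) (S : Finset ℕ) (π : ℕ → ℕ) (x y : ℕ → 𝕜) :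
    val r S π (x + y) ≤ val r S π x + val r S π y := by
  unfold val
  rw [← Finset.sum_add_distrib]
  apply Finset.sum_le_sum
  intro j _
  rw [← add_mul]
  apply mul_le_mul_of_nonneg_right _ (w_nonneg hr _)
  calc ‖(x + y) j‖ ^ r ≤ (‖x j‖ + ‖y j‖) ^ r :=
        Real.rpow_le_rpow (norm_nonneg _) (norm_add_le _ _) hr.le
    _ ≤ _ := Real.rpow_add_le_add_rpow (norm_nonneg _) (norm_nonneg _) hr.le hr1.le

lemma val_smul (c : 𝕜) (S : Finset ℕ) (π : ℕ → ℕ) (x : ℕ → 𝕜) :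
    val r S π (c • x) = ‖c‖ ^ r * val r S π x := by
  unfold val
  rw [Finset.mul_sum]
  apply Finset.sum_congr rfl
  intro j _
  rw [Pi.smul_apply, norm_smul, Real.mul_rpow (norm_nonneg _) (norm_nonneg _)]
  ring

lemma val_neg (S : Finset ℕ) (π : ℕ → ℕ) (x : ℕ → 𝕜) : val r S π (-x) = val r S π x := by
  unfold val
  simp

lemma val_mono (hr : 0 < r) {S S' : Finset ℕ} (h : S ⊆ S') (π : ℕ → ℕ) (x : ℕ → 𝕜) :
    val r S π x ≤ val r S' π x :=
  Finset.sum_le_sum_of_subset_of_nonneg h (fun _ _ _ => mul_nonneg (by positivity) (w_nonneg hr _))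

/-- The sum is split at `N`. -/
lemma val_split (S : Finset ℕ) (π : ℕ → ℕ) (x : ℕ → 𝕜) (N : ℕ) :
    val r S π x = val r (S.filter (fun j => j < N)) π x +
      val r (S.filter (fun j => ¬ j < N)) π x := by
  unfold val
  rw [Finset.sum_filter_add_sum_filter_not]

/-- The space, as a subspace of the space of all sequences: the tails are small. -/
def X (𝕜 : Type) [RCLike 𝕜] (r : ℝ) (hr : 0 < r) (hr1 : r < 1) : Submodule 𝕜 (ℕ → 𝕜) where
  carrier := {x | ∀ ε : ℝ, 0 < ε → ∃ N : ℕ, ∀ (S : Finset ℕ) (π : ℕ → ℕ), Set.InjOn π S →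
    (∀ j ∈ S, N ≤ j) → val r S π x ≤ ε}
  add_mem' := by
    intro x y hx hy ε hε
    obtain ⟨N, hN⟩ := hx (ε / 2) (half_pos hε)
    obtain ⟨N', hN'⟩ := hy (ε / 2) (half_pos hε)
    refine ⟨max N N', fun S π hπ hS => ?_⟩
    have e1 := hN S π hπ (fun j hj => (le_max_left _ _).trans (hS j hj))
    have e2 := hN' S π hπ (fun j hj => (le_max_right _ _).trans (hS j hj))
    exact (val_add_le hr hr1 S π x y).trans (by linarith)
  zero_mem' := by
    intro ε hε
    refine ⟨0, fun S π _ _ => ?_⟩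
    unfold val
    simp only [Pi.zero_apply, norm_zero, Real.zero_rpow hr.ne', zero_mul, Finset.sum_const_zero]
    exact hε.le
  smul_mem' := by
    intro c x hx ε hε
    obtain ⟨N, hN⟩ := hx (ε / (‖c‖ ^ r + 1)) (by positivity)
    refine ⟨N, fun S π hπ hS => ?_⟩
    rw [val_smul]
    have h0 : 0 ≤ ‖c‖ ^ r := by positivity
    calc ‖c‖ ^ r * val r S π x ≤ (‖c‖ ^ r + 1) * (ε / (‖c‖ ^ r + 1)) :=
          mul_le_mul (by linarith) (hN S π hπ hS) (val_nonneg hr _ _ _) (by positivity)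
      _ = ε := by field_simp

variable {hr : 0 < r} {hr1 : r < 1}

lemma bdd (x : X 𝕜 r hr hr1) : BddAbove (vals r (x : ℕ → 𝕜)) := by
  obtain ⟨N, hN⟩ := x.2 1 one_pos
  refine ⟨∑ j ∈ range N, ‖(x : ℕ → 𝕜) j‖ ^ r + 1, ?_⟩
  rintro _ ⟨S, π, hπ, rfl⟩
  rw [val_split S π _ N]
  apply add_le_add
  · unfold val
    calc ∑ j ∈ S.filter (fun j => j < N), ‖(x : ℕ → 𝕜) j‖ ^ r * w r (π j)
        ≤ ∑ j ∈ S.filter (fun j => j < N), ‖(x : ℕ → 𝕜) j‖ ^ r := by
          apply Finset.sum_le_sum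
          intro j _
          calc ‖(x : ℕ → 𝕜) j‖ ^ r * w r (π j) ≤ ‖(x : ℕ → 𝕜) j‖ ^ r * 1 :=
                mul_le_mul_of_nonneg_left (w_le_one hr hr1 _) (by positivity)
            _ = _ := mul_one _
      _ ≤ ∑ j ∈ range N, ‖(x : ℕ → 𝕜) j‖ ^ r := by
          apply Finset.sum_le_sum_of_subset_of_nonneg
          · intro j hj
            exact Finset.mem_range.mpr (Finset.mem_filter.mp hj).2
          · intro j _ _
            positivity
  · apply hN _ _ (hπ.mono (by intro j hj; exact (Finset.mem_filter.mp hj).1))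
    intro j hj
    exact not_lt.mp (Finset.mem_filter.mp hj).2

lemma val_le_nu (x : X 𝕜 r hr hr1) {S : Finset ℕ} {π : ℕ → ℕ} (hπ : Set.InjOn π S) :
    val r S π (x : ℕ → 𝕜) ≤ nu r (x : ℕ → 𝕜) := le_csSup (bdd x) ⟨S, π, hπ, rfl⟩

lemma vals_nonempty (x : ℕ → 𝕜) : (vals r x).Nonempty := ⟨_, ∅, id, by simp, rfl⟩

lemma nu_le {x : ℕ → 𝕜} {c : ℝ} (h : ∀ (S : Finset ℕ) (π : ℕ → ℕ), Set.InjOn π S →
    val r S π x ≤ c) : nu r x ≤ c := by
  apply csSup_le (vals_nonempty x)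
  rintro _ ⟨S, π, hπ, rfl⟩
  exact h S π hπ

lemma nu_nonneg (hr : 0 < r) (x : ℕ → 𝕜) : 0 ≤ nu r x := by
  apply Real.sSup_nonneg
  rintro _ ⟨S, π, _, rfl⟩
  exact val_nonneg hr S π x

lemma exists_near (x : ℕ → 𝕜) {ε : ℝ} (hε : 0 < ε) :
    ∃ (S : Finset ℕ) (π : ℕ → ℕ), Set.InjOn π S ∧ nu r x - ε < val r S π x := by
  obtain ⟨t, ⟨S, π, hπ, rfl⟩, ht⟩ := exists_lt_of_lt_csSup (vals_nonempty (r := r) x)
    (show nu r x - ε < sSup (vals r x) by unfold nu; linarith)
  exact ⟨S, π, hπ, ht⟩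

lemma nu_add_le (x y : X 𝕜 r hr hr1) :
    nu r ((x : ℕ → 𝕜) + (y : ℕ → 𝕜)) ≤ nu r (x : ℕ → 𝕜) + nu r (y : ℕ → 𝕜) := by
  apply nu_le
  intro S π hπ
  exact (val_add_le hr hr1 S π _ _).trans (add_le_add (val_le_nu x hπ) (val_le_nu y hπ))

lemma nu_smul (c : 𝕜) (x : X 𝕜 r hr hr1) :
    nu r (c • (x : ℕ → 𝕜)) = ‖c‖ ^ r * nu r (x : ℕ → 𝕜) := by
  have hle : ∀ (c : 𝕜) (x : X 𝕜 r hr hr1), nu r (c • (x : ℕ → 𝕜)) ≤ ‖c‖ ^ r * nu r (x : ℕ → 𝕜) := by
    intro c x
    apply nu_le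
    intro S π hπ
    rw [val_smul]
    exact mul_le_mul_of_nonneg_left (val_le_nu x hπ) (by positivity)
  rcases eq_or_ne c 0 with rfl | hc
  · apply le_antisymm (hle _ _)
    rw [norm_zero, Real.zero_rpow hr.ne', zero_mul]
    exact nu_nonneg hr _
  · apply le_antisymm (hle _ _)
    have h1 := hle c⁻¹ (c • x)
    rw [Submodule.coe_smul, smul_smul, inv_mul_cancel₀ hc, one_smul, norm_inv,
      Real.inv_rpow (norm_nonneg _)] at h1
    have hpos : 0 < ‖c‖ ^ r := Real.rpow_pos_of_pos (norm_pos_iff.mpr hc) _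
    have h2 := mul_le_mul_of_nonneg_left h1 hpos.le
    rwa [mul_inv_cancel_left₀ hpos.ne'] at h2

lemma nu_neg (x : ℕ → 𝕜) : nu r (-x) = nu r x := by
  unfold nu vals
  simp only [val_neg]

/-- Coordinates are bounded by the norm. -/
lemma coord_le (x : X 𝕜 r hr hr1) (j : ℕ) : ‖(x : ℕ → 𝕜) j‖ ^ r ≤ nu r (x : ℕ → 𝕜) := by
  have h := val_le_nu x (S := {j}) (π := fun _ => 0) (by simp)
  unfold val at h
  rwa [Finset.sum_singleton, w_zero hr, mul_one] at h

lemma eq_zero_of_nu (x : X 𝕜 r hr hr1) (h : nu r (x : ℕ → 𝕜) = 0) : x = 0 := by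
  ext j
  have h1 := coord_le x j
  rw [h] at h1
  have h2 : ‖(x : ℕ → 𝕜) j‖ ^ r = 0 := le_antisymm h1 (by positivity)
  rw [Real.rpow_eq_zero (norm_nonneg _) hr.ne'] at h2
  simpa using h2

/-- Coordinates tend to zero. -/
lemma coord_small (x : X 𝕜 r hr hr1) {ε : ℝ} (hε : 0 < ε) :
    ∃ N, ∀ j, N ≤ j → ‖(x : ℕ → 𝕜) j‖ ≤ ε := by
  obtain ⟨N, hN⟩ := x.2 (ε ^ r) (by positivity)
  refine ⟨N, fun j hj => ?_⟩
  have h := hN {j} (fun _ => 0) (by simp) (fun i hi => by
    rw [Finset.mem_singleton] at hi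
    rwa [hi])
  unfold val at h
  rw [Finset.sum_singleton, w_zero hr, mul_one] at h
  exact (Real.rpow_le_rpow_iff (norm_nonneg _) hε.le hr).mp h

/-- Compression of the positions. -/
lemma compress (hr : 0 < r) (hr1 : r < 1) (S : Finset ℕ) {π : ℕ → ℕ} (hπ : Set.InjOn π S)
    (x : ℕ → 𝕜) : ∃ π' : ℕ → ℕ, Set.InjOn π' S ∧ (∀ j ∈ S, π' j < S.card) ∧
      val r S π x ≤ val r S π' x := by
  classical
  refine ⟨fun j => (S.filter (fun k => π k < π j)).card, ?_, ?_, ?_⟩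
  · intro i hi j hj hij
    simp only at hij
    by_contra hne
    have hne' : π i ≠ π j := fun h => hne (hπ hi hj h)
    have key : ∀ i ∈ S, ∀ j ∈ S, π i < π j →
        (S.filter (fun k => π k < π i)).card < (S.filter (fun k => π k < π j)).card := by
      intro i hi j hj hlt
      apply Finset.card_lt_card
      rw [Finset.ssubset_iff_of_subset]
      · refine ⟨i, Finset.mem_filter.mpr ⟨hi, hlt⟩, ?_⟩
        rw [Finset.mem_filter]
        exact fun h => lt_irrefl _ h.2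
      · intro k hk
        rw [Finset.mem_filter] at hk ⊢
        exact ⟨hk.1, hk.2.trans hlt⟩
    rcases lt_or_gt_of_ne hne' with h | h
    · exact absurd hij (key i hi j hj h).ne
    · exact absurd hij.symm (key j hj i hi h).ne
  · intro j hj
    apply Finset.card_lt_card
    rw [Finset.ssubset_iff_of_subset (Finset.filter_subset _ _)]
    exact ⟨j, hj, fun h => lt_irrefl _ (Finset.mem_filter.mp h).2⟩
  · unfold val
    apply Finset.sum_le_sum
    intro j hj
    apply mul_le_mul_of_nonneg_left _ (by positivity)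
    apply w_anti hr hr1
    have h1 : ((S.filter (fun k => π k < π j)).image π).card = (S.filter (fun k => π k < π j)).card :=
      Finset.card_image_of_injOn (hπ.mono (by intro k hk; exact (Finset.mem_filter.mp hk).1))
    have h2 : (S.filter (fun k => π k < π j)).image π ⊆ range (π j) := by
      intro k hk
      rw [Finset.mem_image] at hk
      obtain ⟨l, hl, rfl⟩ := hk
      exact Finset.mem_range.mpr (Finset.mem_filter.mp hl).2
    have h3 := Finset.card_le_card h2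
    rw [h1, Finset.card_range] at h3
    exact h3

end Pool.Agent.X171.LZ
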