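import Pool.Agent.X171.LZ.Core

open Finset Filter Topology

namespace Pool.Agent.X171.LZ

variable {𝕜 : Type} [RCLike 𝕜] {r : ℝ} {hr : 0 < r} {hr1 : r < 1}

/-- Vectors which start late and are flat almost add up in norm. -/
lemma flat (u : X 𝕜 r hr hr1) : ∃ K : ℕ, ∃ τ : ℝ, 0 < τ ∧ ∀ y : X 𝕜 r hr hr1,
    (∀ i < K, (y : ℕ → 𝕜) i = 0) → (∀ i, ‖(y : ℕ → 𝕜) i‖ ^ r ≤ τ) →
      nu r (u : ℕ → 𝕜) + nu r (y : ℕ → 𝕜) - 1 / 2 ≤ nu r ((u : ℕ → 𝕜) + (y : ℕ → 𝕜)) := by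
  classical
  obtain ⟨K, hK⟩ := u.2 (1 / 16) (by norm_num)
  have hKpos : (0 : ℝ) < (K : ℝ) + 1 := by positivity
  refine ⟨K, 1 / (16 * ((K : ℝ) + 1)), by positivity, ?_⟩
  intro y hy0 hyτ
  obtain ⟨S₁, π₁, hπ₁, hn₁⟩ := exists_near (r := r) (u : ℕ → 𝕜) (by norm_num : (0 : ℝ) < 1 / 16)
  obtain ⟨S₂, π₂, hπ₂, hn₂⟩ := exists_near (r := r) (y : ℕ → 𝕜) (by norm_num : (0 : ℝ) < 1 / 16)
  set T₁ := S₁.filter (fun j => j < K) with hT₁
  set T₂ := S₂.filter (fun j => ¬ j < K) with hT₂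
  have hT₁m : ∀ j ∈ T₁, j < K := fun j hj => (Finset.mem_filter.mp hj).2
  have hT₂m : ∀ j ∈ T₂, K ≤ j := fun j hj => not_lt.mp (Finset.mem_filter.mp hj).2
  have hπT₁ : Set.InjOn π₁ T₁ := hπ₁.mono (by intro j hj; exact (Finset.mem_filter.mp hj).1)
  have hπT₂ : Set.InjOn π₂ T₂ := hπ₂.mono (by intro j hj; exact (Finset.mem_filter.mp hj).1)
  have hv₁ : val r S₁ π₁ (u : ℕ → 𝕜) ≤ val r T₁ π₁ (u : ℕ → 𝕜) + 1 / 16 := by
    rw [val_split S₁ π₁ _ K]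
    apply add_le_add le_rfl
    apply hK _ _ (hπ₁.mono (by intro j hj; exact (Finset.mem_filter.mp hj).1))
    intro j hj
    exact not_lt.mp (Finset.mem_filter.mp hj).2
  have hv₂ : val r S₂ π₂ (y : ℕ → 𝕜) = val r T₂ π₂ (y : ℕ → 𝕜) := by
    rw [val_split S₂ π₂ _ K]
    have : val r (S₂.filter (fun j => j < K)) π₂ (y : ℕ → 𝕜) = 0 := by
      unfold val
      apply Finset.sum_eq_zero
      intro j hj
      rw [hy0 j (Finset.mem_filter.mp hj).2, norm_zero, Real.zero_rpow hr.ne', zero_mul]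
    rw [this, zero_add]
  obtain ⟨π₁', hπ₁', hlt, hcomp⟩ := compress hr hr1 T₁ hπT₁ (u : ℕ → 𝕜)
  have hcard : T₁.card ≤ K := by
    have : T₁ ⊆ range K := fun j hj => Finset.mem_range.mpr (hT₁m j hj)
    have := Finset.card_le_card this
    rwa [Finset.card_range] at this
  set π : ℕ → ℕ := fun j => if j < K then π₁' j else π₂ j + K with hπ
  have hdis : Disjoint T₁ T₂ := by
    rw [Finset.disjoint_left]
    intro j h1 h2
    exact absurd (hT₁m j h1) (not_lt.mpr (hT₂m j h2))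
  have e₁ : ∀ j ∈ T₁, π j = π₁' j := fun j hj => if_pos (hT₁m j hj)
  have e₂ : ∀ j ∈ T₂, π j = π₂ j + K := fun j hj => if_neg (not_lt.mpr (hT₂m j hj))
  have hinj : Set.InjOn π (T₁ ∪ T₂ : Finset ℕ) := by
    intro i hi j hj hij
    rw [Finset.mem_coe, Finset.mem_union] at hi hj
    rcases hi with hi | hi <;> rcases hj with hj | hj
    · rw [e₁ i hi, e₁ j hj] at hij
      exact hπ₁' hi hj hij
    · rw [e₁ i hi, e₂ j hj] at hij
      have := hlt i hi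
      omega
    · rw [e₂ i hi, e₁ j hj] at hij
      have := hlt j hj
      omega
    · rw [e₂ i hi, e₂ j hj] at hij
      exact hπT₂ hi hj (by omega)
  have hmain := val_le_nu (u + y) (S := T₁ ∪ T₂) hinj
  have hsplit : val r (T₁ ∪ T₂) π ((u + y : X 𝕜 r hr hr1) : ℕ → 𝕜) =
      val r T₁ π ((u : ℕ → 𝕜) + (y : ℕ → 𝕜)) + val r T₂ π ((u : ℕ → 𝕜) + (y : ℕ → 𝕜)) := by
    unfold val
    rw [Finset.sum_union hdis]
    rfl
  have hA : val r T₁ π ((u : ℕ → 𝕜) + (y : ℕ → 𝕜)) = val r T₁ π₁' (u : ℕ → 𝕜) := by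
    unfold val
    apply Finset.sum_congr rfl
    intro j hj
    rw [e₁ j hj, Pi.add_apply, hy0 j (hT₁m j hj), add_zero]
  have hB : val r T₂ π (y : ℕ → 𝕜) - val r T₂ π (u : ℕ → 𝕜) ≤
      val r T₂ π ((u : ℕ → 𝕜) + (y : ℕ → 𝕜)) := by
    have h1 := val_add_le hr hr1 T₂ π ((u : ℕ → 𝕜) + (y : ℕ → 𝕜)) (-(u : ℕ → 𝕜))
    rw [val_neg, add_neg_cancel_comm] at h1
    linarith
  have hCu : val r T₂ π (u : ℕ → 𝕜) ≤ 1 / 16 := by
    apply hK T₂ π (hinj.mono (by intro j hj; exact Finset.mem_union_right _ hj)) hT₂m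
  have hD : val r T₂ π₂ (y : ℕ → 𝕜) - 1 / 16 ≤ val r T₂ π (y : ℕ → 𝕜) := by
    have h1 : val r T₂ π₂ (y : ℕ → 𝕜) - val r T₂ π (y : ℕ → 𝕜) ≤ 1 / 16 := by
      unfold val
      rw [← Finset.sum_sub_distrib]
      calc ∑ j ∈ T₂, (‖(y : ℕ → 𝕜) j‖ ^ r * w r (π₂ j) - ‖(y : ℕ → 𝕜) j‖ ^ r * w r (π j))
          ≤ ∑ j ∈ T₂, 1 / (16 * ((K : ℝ) + 1)) * (w r (π₂ j) - w r (π₂ j + K)) := by
            apply Finset.sum_le_sum
            intro j hj
            rw [e₂ j hj, ← mul_sub]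
            apply mul_le_mul_of_nonneg_right (hyτ j)
            rw [sub_nonneg]
            exact w_anti hr hr1 (Nat.le_add_right _ _)
        _ = 1 / (16 * ((K : ℝ) + 1)) * ∑ n ∈ T₂.image π₂, (w r n - w r (n + K)) := by
            rw [Finset.sum_image hπT₂, Finset.mul_sum]
        _ ≤ 1 / (16 * ((K : ℝ) + 1)) * K :=
            mul_le_mul_of_nonneg_left (shift_loss hr hr1 K _) (by positivity)
        _ ≤ 1 / (16 * ((K : ℝ) + 1)) * ((K : ℝ) + 1) :=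
            mul_le_mul_of_nonneg_left (by linarith) (by positivity)
        _ = 1 / 16 := by field_simp
    linarith
  rw [hsplit, hA] at hmain
  have : ((u + y : X 𝕜 r hr hr1) : ℕ → 𝕜) = (u : ℕ → 𝕜) + (y : ℕ → 𝕜) := rfl
  rw [this] at hmain
  linarith

/-- Lower bound of the norm by the size on a set of coordinates. -/
lemma lower_card (z : X 𝕜 r hr hr1) (S : Finset ℕ) {t : ℝ} (ht : 0 ≤ t)
    (h : ∀ i ∈ S, t ≤ ‖(z : ℕ → 𝕜) i‖) : t ^ r * (S.card : ℝ) ^ (r / 2) ≤ nu r (z : ℕ → 𝕜) := by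
  classical
  obtain ⟨π, hπ, hlt, -⟩ := compress hr hr1 S (Set.injOn_id _) (z : ℕ → 𝕜)
  refine le_trans ?_ (val_le_nu z hπ)
  have himg : S.image π = range S.card := by
    apply Finset.eq_of_subset_of_card_le
    · intro n hn
      rw [Finset.mem_image] at hn
      obtain ⟨j, hj, rfl⟩ := hn
      exact Finset.mem_range.mpr (hlt j hj)
    · rw [Finset.card_range, Finset.card_image_of_injOn hπ]
  rw [← sum_w hr, ← himg, Finset.sum_image hπ, Finset.mul_sum]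
  unfold val
  apply Finset.sum_le_sum
  intro j hj
  exact mul_le_mul_of_nonneg_right (Real.rpow_le_rpow ht (h j hj) hr.le) (w_nonneg hr _)

/-- Normalization. -/
lemma normalize (z : X 𝕜 r hr hr1) (hz : z ≠ 0) : ∃ t : ℝ, 0 < t ∧
    t = (nu r (z : ℕ → 𝕜)) ^ (-(1 / r)) ∧ nu r (((t : 𝕜) • z : X 𝕜 r hr hr1) : ℕ → 𝕜) = 1 := by
  have hpos : 0 < nu r (z : ℕ → 𝕜) :=
    lt_of_le_of_ne (nu_nonneg hr _) (fun h => hz (eq_zero_of_nu z h.symm))
  refine ⟨_, Real.rpow_pos_of_pos hpos _, rfl, ?_⟩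
  rw [Submodule.coe_smul, nu_smul, RCLike.norm_ofReal, abs_of_pos (Real.rpow_pos_of_pos hpos _),
    ← Real.rpow_mul hpos.le, neg_mul, one_div, inv_mul_cancel₀ hr.ne', Real.rpow_neg_one,
    inv_mul_cancel₀ hpos.ne']

/-- A nonzero vector of `Y` with vanishing first coordinates. -/
lemma exists_late (Y : Submodule 𝕜 (X 𝕜 r hr hr1)) (hY : ¬ FiniteDimensional 𝕜 Y) (K : ℕ) :
    ∃ y : X 𝕜 r hr hr1, y ∈ Y ∧ nu r (y : ℕ → 𝕜) = 1 ∧ ∀ i < K, (y : ℕ → 𝕜) i = 0 := by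
  let f : Y →ₗ[𝕜] (Fin K → 𝕜) :=
    { toFun := fun y i => ((y : X 𝕜 r hr hr1) : ℕ → 𝕜) i
      map_add' := fun _ _ => rfl
      map_smul' := fun _ _ => rfl }
  have hni : ∃ y : Y, f y = 0 ∧ y ≠ 0 := by
    by_contra hno
    push Not at hno
    refine hY (FiniteDimensional.of_injective f (fun a b hab => ?_))
    have h1 : f (a - b) = 0 := by
      funext i
      have h2 : f a i = f b i := by rw [hab]
      change f a i - f b i = 0
      rw [h2, sub_self]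
    exact sub_eq_zero.mp (hno _ h1)
  obtain ⟨y, hy, hy0⟩ := hni
  have hy0' : (y : X 𝕜 r hr hr1) ≠ 0 := fun h => hy0 (Subtype.ext h)
  obtain ⟨t, _, _, ht⟩ := normalize (y : X 𝕜 r hr hr1) hy0'
  refine ⟨(t : 𝕜) • (y : X 𝕜 r hr hr1), Y.smul_mem _ y.2, ht, ?_⟩
  intro i hi
  have h1 : f y ⟨i, hi⟩ = 0 := by
    rw [hy]
    rfl
  have h2 : ((y : X 𝕜 r hr hr1) : ℕ → 𝕜) i = 0 := h1
  rw [Submodule.coe_smul, Pi.smul_apply, h2, smul_zero]

lemma norm_le_one_of_nu (y : X 𝕜 r hr hr1) (h : nu r (y : ℕ → 𝕜) ≤ 1) (i : ℕ) :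
    ‖(y : ℕ → 𝕜) i‖ ≤ 1 := by
  have h1 := (coord_le y i).trans h
  rw [← Real.one_rpow r] at h1
  exact (Real.rpow_le_rpow_iff (norm_nonneg _) zero_le_one hr).mp h1

/-- Normalized flat vectors which start late. -/
lemma exists_flat (Y : Submodule 𝕜 (X 𝕜 r hr hr1)) (hY : ¬ FiniteDimensional 𝕜 Y) (K : ℕ) {δ : ℝ}
    (hδ : 0 < δ) : ∃ y : X 𝕜 r hr hr1, y ∈ Y ∧ nu r (y : ℕ → 𝕜) = 1 ∧
      (∀ i < K, (y : ℕ → 𝕜) i = 0) ∧ ∀ i, ‖(y : ℕ → 𝕜) i‖ ≤ δ := by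
  classical
  by_contra hcon
  push Not at hcon
  have claim : ∀ m : ℕ, ∃ z : X 𝕜 r hr hr1, z ∈ Y ∧ (∀ i < K, (z : ℕ → 𝕜) i = 0) ∧
      (∀ i, ‖(z : ℕ → 𝕜) i‖ ≤ 2) ∧ ∃ S : Finset ℕ, S.card = m ∧
        ∀ i ∈ S, δ / 2 ≤ ‖(z : ℕ → 𝕜) i‖ := by
    intro m
    induction m with
    | zero =>
      exact ⟨0, Y.zero_mem, fun _ _ => rfl, fun i => by simp, ∅, rfl, fun i hi => by simp at hi⟩
    | succ m ih =>
      obtain ⟨z, hzY, hz0, hz2, S, hS, hSz⟩ := ih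
      obtain ⟨N, hN⟩ := coord_small z (ε := min (δ / 2) 1) (by positivity)
      set K' := max K (max N (S.sup id + 1)) with hK'
      obtain ⟨y, hyY, hy1, hy0⟩ := exists_late Y hY K'
      obtain ⟨i₀, hi₀⟩ := hcon y hyY hy1 (fun i hi => hy0 i (lt_of_lt_of_le hi (le_max_left _ _)))
      have hi₀K : K' ≤ i₀ := by
        by_contra hlt
        rw [hy0 i₀ (not_le.mp hlt), norm_zero] at hi₀
        linarith
      have hSK : ∀ i ∈ S, i < K' := fun i hi => by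
        have := Finset.le_sup (f := id) hi
        simp only [id] at this
        exact lt_of_lt_of_le (Nat.lt_succ_of_le this)
          ((le_max_right _ _).trans (le_max_right _ _))
      have hNK : N ≤ K' := (le_max_left _ _).trans (le_max_right _ _)
      have hadd : ∀ i, ((z + y : X 𝕜 r hr hr1) : ℕ → 𝕜) i = (z : ℕ → 𝕜) i + (y : ℕ → 𝕜) i :=
        fun _ => rfl
      refine ⟨z + y, Y.add_mem hzY hyY, ?_, ?_, insert i₀ S, ?_, ?_⟩
      · intro i hi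
        rw [hadd, hz0 i hi, hy0 i (lt_of_lt_of_le hi (le_max_left _ _)), add_zero]
      · intro i
        rw [hadd]
        by_cases h : i < K'
        · rw [hy0 i h, add_zero]
          exact hz2 i
        · refine (norm_add_le _ _).trans ?_
          have h1 := (hN i (hNK.trans (not_lt.mp h))).trans (min_le_right _ _)
          have h2 := norm_le_one_of_nu y hy1.le i
          linarith
      · rw [Finset.card_insert_of_notMem, hS]
        intro h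
        exact absurd (hSK i₀ h) (not_lt.mpr hi₀K)
      · intro i hi
        rw [Finset.mem_insert] at hi
        rcases hi with rfl | hi
        · rw [hadd]
          have h1 := (hN i (hNK.trans hi₀K)).trans (min_le_left _ _)
          have h2 := norm_sub_norm_le ((y : ℕ → 𝕜) i) (-(z : ℕ → 𝕜) i)
          rw [norm_neg, sub_neg_eq_add, add_comm ((y : ℕ → 𝕜) i)] at h2
          linarith
        · rw [hadd, hy0 i (hSK i hi), add_zero]
          exact hSz i hi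
  -- a large number of coordinates gives a contradiction
  have hlim : Tendsto (fun m : ℕ => (m : ℝ) ^ (r / 2)) atTop atTop :=
    (tendsto_rpow_atTop (by positivity)).comp tendsto_natCast_atTop_atTop
  obtain ⟨m, hm1, hm2⟩ := ((hlim.eventually_gt_atTop ((2 / δ) ^ r / (δ / 2) ^ r)).and
    (eventually_gt_atTop 0)).exists
  obtain ⟨z, hzY, hz0, hz2, S, hS, hSz⟩ := claim m
  have hδr : 0 < (δ / 2) ^ r := by positivity
  have hlow := lower_card z S (by positivity) hSz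
  rw [hS] at hlow
  have hbig : (2 / δ) ^ r < nu r (z : ℕ → 𝕜) := by
    rw [div_lt_iff₀ hδr] at hm1
    linarith
  have hnupos : 0 < nu r (z : ℕ → 𝕜) := lt_trans (by positivity) hbig
  have hz : z ≠ 0 := by
    rintro rfl
    have : nu r ((0 : X 𝕜 r hr hr1) : ℕ → 𝕜) ≤ 0 := by
      apply nu_le
      intro S π _
      unfold val
      simp [Real.zero_rpow hr.ne']
    linarith
  obtain ⟨t, ht0, ht1, ht2⟩ := normalize z hz
  obtain ⟨i, hi⟩ := hcon ((t : 𝕜) • z) (Y.smul_mem _ hzY) ht2 (fun i hi => by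
    rw [Submodule.coe_smul, Pi.smul_apply, hz0 i hi, smul_zero])
  rw [Submodule.coe_smul, Pi.smul_apply, norm_smul, RCLike.norm_ofReal, abs_of_pos ht0] at hi
  have h1 : δ < t * 2 := lt_of_lt_of_le hi (mul_le_mul_of_nonneg_left (hz2 i) ht0.le)
  -- but `t ^ r = 1 / nu z < (δ / 2) ^ r`
  have h2 : t ^ r = (nu r (z : ℕ → 𝕜))⁻¹ := by
    rw [ht1, ← Real.rpow_mul hnupos.le, neg_mul, one_div, inv_mul_cancel₀ hr.ne',
      Real.rpow_neg_one]
  have h3 : (δ / 2) ^ r < t ^ r := Real.rpow_lt_rpow (by positivity) (by linarith) hr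
  have h4 : (2 / δ) ^ r = ((δ / 2) ^ r)⁻¹ := by
    rw [← Real.inv_rpow (by positivity), inv_div]
  rw [h2] at h3
  rw [h4] at hbig
  have h5 := inv_lt_of_inv_lt₀ hδr hbig
  linarith

/-- The main construction: sums of `m` normalized vectors of norm at least `m / 2`. -/
lemma main (Y : Submodule 𝕜 (X 𝕜 r hr hr1)) (hY : ¬ FiniteDimensional 𝕜 Y)
    (N : X 𝕜 r hr hr1 → ℝ) (p C : ℝ)
    (hN1 : ∀ y ∈ Y, nu r (y : ℕ → 𝕜) = 1 → N y ^ p ≤ C)
    (hN2 : ∀ y ∈ Y, ∀ z ∈ Y, N (y + z) ^ p ≤ N y ^ p + N z ^ p)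
    (hN3 : N 0 ^ p ≤ 0) (m : ℕ) :
    ∃ s ∈ Y, (m : ℝ) / 2 ≤ nu r ((s : X 𝕜 r hr hr1) : ℕ → 𝕜) ∧ N s ^ p ≤ m * C := by
  induction m with
  | zero =>
    refine ⟨0, Y.zero_mem, ?_, ?_⟩
    · rw [Nat.cast_zero, zero_div]
      exact nu_nonneg hr _
    · rw [Nat.cast_zero, zero_mul]
      exact hN3
  | succ m ih =>
    obtain ⟨s, hs, hs1, hs2⟩ := ih
    obtain ⟨K, τ, hτ, hflat⟩ := flat s
    obtain ⟨y, hyY, hy1, hy2, hy3⟩ := exists_flat Y hY K (δ := τ ^ (1 / r)) (by positivity)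
    refine ⟨s + y, Y.add_mem hs hyY, ?_, ?_⟩
    · have h1 := hflat y hy2 (fun i => by
        calc ‖(y : ℕ → 𝕜) i‖ ^ r ≤ (τ ^ (1 / r)) ^ r :=
              Real.rpow_le_rpow (norm_nonneg _) (hy3 i) hr.le
          _ = τ := by rw [← Real.rpow_mul hτ.le, one_div, inv_mul_cancel₀ hr.ne', Real.rpow_one])
      rw [hy1] at h1
      have e : ((s + y : X 𝕜 r hr hr1) : ℕ → 𝕜) = (s : ℕ → 𝕜) + (y : ℕ → 𝕜) := rfl
      rw [e]
      push_cast
      linarith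
    · have h1 := hN2 s hs y hyY
      have h2 := hN1 y hyY hy1
      push_cast
      linarith

end Pool.Agent.X171.LZ
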